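import Pool.Agent.Helper76.SH.Defs

/-!
# MP_506470_co : full symmetry on independent sets (FS), definitions and tools

Goal (FS): a set-homogeneous graph with independent sets of all sizes, in which some vertex is
isolated from some triangle, induces every permutation on every finite independent set.
-/

namespace SetHom
namespace FS

variable {V : Type*}

/-- Every permutation of a finite independent set is induced by an automorphism. -/
def FullSym (G : SimpleGraph V) : Prop :=
  ∀ l l' : List V, l.Nodup → (∀ x ∈ l, ∀ y ∈ l, ¬ G.Adj x y) → l'.Perm l →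
    ∃ φ : G ≃g G, l.map φ = l'

/-- A triangle and a vertex without neighbours in it. -/
def K3K1 (G : SimpleGraph V) : Prop :=
  ∃ a b c e, G.Adj a b ∧ G.Adj a c ∧ G.Adj b c ∧ e ≠ a ∧ e ≠ b ∧ e ≠ c ∧
    ¬ G.Adj e a ∧ ¬ G.Adj e b ∧ ¬ G.Adj e c

/-- `K` is a family of good lists: one orbit of independent lists for each length, closed under
sublists, such that every finite independent set has a good enumeration. -/
structure GdL (G : SimpleGraph V) (K : List V → Prop) : Prop where
  nodup : ∀ l, K l → l.Nodup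
  ind : ∀ l, K l → ∀ x ∈ l, ∀ y ∈ l, ¬ G.Adj x y
  sub : ∀ l m, K l → m.Sublist l → K m
  aut : ∀ l m, K l → K m → l.length = m.length → ∃ φ : G ≃g G, l.map φ = m
  img : ∀ (φ : G ≃g G) l, K l → K (l.map φ)
  enum : ∀ S : Finset V, Indep G S → ∃ l, K l ∧ ∀ x, x ∈ l ↔ x ∈ S
  long : ∀ n, ∃ l, K l ∧ l.length = n

/-- The transposition of the two middle points of a good list of length `2 t + 2`. -/
def TT (K : List V → Prop) (t : ℕ) : Prop :=
  ∃ a x y b, a.length = t ∧ b.length = t ∧ K (a ++ x :: y :: b) ∧ K (a ++ y :: x :: b)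

/-- The word `1^L 0 1^L` is a trace. -/
def CoS (G : SimpleGraph V) (K : List V → Prop) (L : ℕ) : Prop :=
  ∃ a x b v, a.length = L ∧ b.length = L ∧ K (a ++ x :: b) ∧ ¬ G.Adj v x ∧
    (∀ y ∈ a, G.Adj v y) ∧ ∀ y ∈ b, G.Adj v y

/-- The word `0^L 1 0^L` is a trace. -/
def Sg (G : SimpleGraph V) (K : List V → Prop) (L : ℕ) : Prop :=
  ∃ a x b v, a.length = L ∧ b.length = L ∧ K (a ++ x :: b) ∧ G.Adj v x ∧
    (∀ y ∈ a, ¬ G.Adj v y) ∧ ∀ y ∈ b, ¬ G.Adj v y

/-- All traces on good lists are monotone: there is no subword `101` and no subword `010`. -/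
def Mono (G : SimpleGraph V) (K : List V → Prop) : Prop :=
  ∀ a b c v, K [a, b, c] → ¬ (G.Adj v a ∧ ¬ G.Adj v b ∧ G.Adj v c) ∧
    ¬ (¬ G.Adj v a ∧ G.Adj v b ∧ ¬ G.Adj v c)

/-- All initial words `1^a 0^b` are traces. -/
def InitO (G : SimpleGraph V) (K : List V → Prop) : Prop :=
  ∀ l₁ l₂, K (l₁ ++ l₂) → ∃ v, (∀ x ∈ l₁, G.Adj v x) ∧ ∀ x ∈ l₂, v ≠ x ∧ ¬ G.Adj v x

/-- All final words `0^a 1^b` are traces. -/
def FinO (G : SimpleGraph V) (K : List V → Prop) : Prop :=
  ∀ l₁ l₂, K (l₁ ++ l₂) → ∃ v, (∀ x ∈ l₁, v ≠ x ∧ ¬ G.Adj v x) ∧ ∀ x ∈ l₂, G.Adj v x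

/-- The word `01` is not a trace. -/
def NoFin (G : SimpleGraph V) (K : List V → Prop) : Prop :=
  ∀ x y v, K [x, y] → G.Adj v y → G.Adj v x

/-- Good enumerations of a set with at least three elements are unique up to reversal. -/
def UQ (K : List V → Prop) : Prop :=
  ∀ l l', K l → K l' → l'.Perm l → 3 ≤ l.length → l' = l ∨ l' = l.reverse

/-- The situation in the monotone case. -/
structure MC (G : SimpleGraph V) (K : List V → Prop) : Prop where
  sh : SetHomogeneous G
  gl : GdL G K
  mono : Mono G K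
  init : InitO G K
  uq : UQ K
  rev : (∀ l, K l → K l.reverse) ∨ NoFin G K
  ins : ∀ l v, K l → 2 ≤ l.length → v ∉ l → (∀ x ∈ l, ¬ G.Adj v x) →
    ∃ p q, l = p ++ q ∧ K (p ++ v :: q)

/-- Option 1: a vertex with an initial trace stands before the rest of the list. -/
def Opt1 (G : SimpleGraph V) (K : List V → Prop) : Prop :=
  ∀ l₁ l₂ v, K (l₁ ++ l₂) → l₁ ≠ [] → 2 ≤ l₂.length → (∀ x ∈ l₁, G.Adj v x) →
    (∀ x ∈ l₂, ¬ G.Adj v x) → K (v :: l₂)

/-- Option 2: a vertex with trace `1100` stands behind the rest of the list, and good lists can be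
reversed. -/
def Opt2 (G : SimpleGraph V) (K : List V → Prop) : Prop :=
  (∀ l, K l → K l.reverse) ∧ ∀ a b c d v, K [a, b, c, d] → G.Adj v a → G.Adj v b →
    ¬ G.Adj v c → ¬ G.Adj v d → K [c, d, v]

variable {G : SimpleGraph V} {K : List V → Prop}

theorem GdL.nil (h : GdL G K) : K [] := by
  obtain ⟨l, hl, _⟩ := h.long 0
  exact h.sub _ _ hl (List.nil_sublist _)

/-- Insertion of `n` elements at a given position. -/
theorem GdL.ins (h : GdL G K) {a b : List V} (hab : K (a ++ b)) (n : ℕ) :
    ∃ m : List V, m.length = n ∧ K (a ++ m ++ b) := by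
  obtain ⟨L, hL, hlen⟩ := h.long (a.length + n + b.length)
  obtain ⟨p, L', rfl, hp⟩ : ∃ p L', L = p ++ L' ∧ p.length = a.length :=
    ⟨L.take a.length, L.drop a.length, (List.take_append_drop _ _).symm, by
      rw [List.length_take]; omega⟩
  obtain ⟨m, q, rfl, hm⟩ : ∃ m q, L' = m ++ q ∧ m.length = n :=
    ⟨L'.take n, L'.drop n, (List.take_append_drop _ _).symm, by
      rw [List.length_take]; rw [List.length_append] at hlen; omega⟩
  have hs : K (p ++ q) := by
    refine h.sub _ _ hL ?_
    exact (List.Sublist.refl p).append (List.sublist_append_right m q)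
  have hq : q.length = b.length := by
    simp only [List.length_append] at hlen; omega
  obtain ⟨φ, hφ⟩ := h.aut _ _ hs hab (by simp only [List.length_append]; omega)
  rw [List.map_append] at hφ
  obtain ⟨h1, h2⟩ := List.append_inj hφ (by simpa using hp)
  refine ⟨m.map φ, by simpa using hm, ?_⟩
  have := h.img φ _ hL
  rw [List.map_append, List.map_append, h1, h2] at this
  simpa using this

/-- Extension at both ends. -/
theorem GdL.ext (h : GdL G K) {l : List V} (hl : K l) (p q : ℕ) :
    ∃ a b : List V, a.length = p ∧ b.length = q ∧ K (a ++ l ++ b) := by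
  obtain ⟨a, ha, h1⟩ := h.ins (a := []) (b := l) (by simpa using hl) p
  obtain ⟨b, hb, h2⟩ := h.ins (a := a ++ l) (b := []) (by simpa using h1) q
  exact ⟨a, b, ha, hb, by simpa using h2⟩

/-- The reversed family. -/
theorem GdL.reverse (h : GdL G K) : GdL G (fun l => K l.reverse) where
  nodup l hl := List.nodup_reverse.1 (h.nodup _ hl)
  ind l hl x hx y hy := h.ind _ hl x (by simpa using hx) y (by simpa using hy)
  sub l m hl hm := h.sub _ _ hl (List.reverse_sublist.2 hm)
  aut l m hl hm hlen := by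
    obtain ⟨φ, hφ⟩ := h.aut _ _ hl hm (by simpa using hlen)
    refine ⟨φ, ?_⟩
    rw [List.map_reverse] at hφ
    exact List.reverse_injective hφ
  img φ l hl := by
    have := h.img φ _ hl
    simpa [List.map_reverse] using this
  enum S hS := by
    obtain ⟨l, hl, h1⟩ := h.enum S hS
    exact ⟨l.reverse, by simpa using hl, fun x => by simpa using h1 x⟩
  long n := by
    obtain ⟨l, hl, h1⟩ := h.long n
    exact ⟨l.reverse, by simpa using hl, by simpa using h1⟩

/-- `SetHomogeneous` for lists: if `m` is a list with the same adjacencies as `l` (and both have no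
repetitions), some automorphism maps the set of elements of `l` onto that of `m`. -/
theorem sh_list (hsh : SetHomogeneous G) (l m : List V) (hl : l.Nodup) (hm : m.Nodup)
    (hlen : l.length = m.length)
    (hadj : ∀ i (h₁ : i < l.length) (h₂ : i < m.length) j (h₃ : j < l.length) (h₄ : j < m.length),
      (G.Adj l[i] l[j] ↔ G.Adj m[i] m[j])) :
    ∃ φ : G ≃g G, ∀ x, φ x ∈ m ↔ x ∈ l := by
  classical
  have e1 : Fin l.length ≃ (l.toFinset : Set V) :=
    (List.Nodup.getEquiv l hl).trans (Equiv.subtypeEquivRight fun x => by simp)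
  let f : Fin l.length ≃ {x // x ∈ l.toFinset} :=
    (List.Nodup.getEquiv l hl).trans (Equiv.subtypeEquivRight fun x => by simp)
  let g : Fin m.length ≃ {x // x ∈ m.toFinset} :=
    (List.Nodup.getEquiv m hm).trans (Equiv.subtypeEquivRight fun x => by simp)
  have hf : ∀ i, ((f i).1 : V) = l[i.1] := fun i => rfl
  have hg : ∀ i, ((g i).1 : V) = m[i.1] := fun i => rfl
  let e : {x // x ∈ l.toFinset} ≃ {x // x ∈ m.toFinset} :=
    f.symm.trans ((finCongr hlen).trans g)
  have he : ∀ i : Fin l.length, ((e (f i)).1 : V) = m[i.1]'(hlen ▸ i.2) := by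
    intro i
    simp only [e, Equiv.trans_apply, Equiv.symm_apply_apply, hg]
    rfl
  obtain ⟨φ, hφ⟩ := hsh l.toFinset m.toFinset ⟨{
    toEquiv := e
    map_rel_iff' := by
      intro a b
      obtain ⟨i, rfl⟩ := f.surjective a
      obtain ⟨j, rfl⟩ := f.surjective b
      show G.Adj (e (f i)).1 (e (f j)).1 ↔ G.Adj (f i).1 (f j).1
      rw [he, he, hf, hf]
      exact (hadj i.1 i.2 _ j.1 j.2 _).symm }⟩
  refine ⟨φ, fun x => ?_⟩
  have h1 : φ x ∈ (m.toFinset : Set V) ↔ x ∈ (l.toFinset : Set V) := by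
    rw [← hφ]
    exact φ.injective.mem_set_image
  simpa using h1

end FS
end SetHom
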