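import Pool.Agent.Helper90.SH.FSDefs

/-!
# MP_506470_co, module FSb : if transpositions of neighbours are always possible, then every
permutation of a finite independent set is induced by an automorphism
-/

namespace SetHom
namespace FS

variable {V : Type*} {G : SimpleGraph V} {K : List V → Prop}

theorem fsb_swap (h : GdL G K) (ht : ∀ t, TT K t) (a b : List V) (x y : V)
    (hK : K (a ++ x :: y :: b)) : K (a ++ y :: x :: b) := by
  obtain ⟨a0, x0, y0, b0, ha0, hb0, h1, h2⟩ := ht (max a.length b.length)
  obtain ⟨p, q, hp, hq, h3⟩ := h.ext hK (max a.length b.length - a.length)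
    (max a.length b.length - b.length)
  have hla : (p ++ a).length = a0.length := by
    rw [List.length_append, hp, ha0]; omega
  have hlb : (b ++ q).length = b0.length := by
    rw [List.length_append, hq, hb0]; omega
  have h3' : K ((p ++ a) ++ x :: y :: (b ++ q)) := by simpa using h3
  obtain ⟨φ, hφ⟩ := h.aut _ _ h1 h3' (by
    simp only [List.length_append, List.length_cons] at hla hlb ⊢; omega)
  rw [List.map_append] at hφ
  obtain ⟨e1, e2⟩ := List.append_inj hφ (by simpa using hla.symm)
  simp only [List.map_cons, List.cons.injEq] at e2
  obtain ⟨e3, e4, e5⟩ := e2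
  have h4 := h.img φ _ h2
  rw [List.map_append, List.map_cons, List.map_cons, e1, e3, e4, e5] at h4
  refine h.sub _ _ h4 ?_
  refine List.Sublist.append (List.sublist_append_right p a) ?_
  exact ((List.sublist_append_left b q).cons_cons x).cons_cons y

theorem fsb_perm (h : GdL G K) (ht : ∀ t, TT K t) {l l' : List V} (hp : l.Perm l') :
    ∀ p, K (p ++ l) → K (p ++ l') := by
  induction hp with
  | nil => exact fun p hp => hp
  | cons x _ ih =>
    intro p hp
    have := ih (p ++ [x]) (by simpa using hp)
    simpa using this
  | swap x y l =>
    intro p hp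
    exact fsb_swap h ht p l _ _ hp
  | trans _ _ ih1 ih2 => exact fun p hp => ih2 p (ih1 p hp)

/-- module FSb -/
theorem fullSym_of_TT (h : GdL G K) (ht : ∀ t, TT K t) : FullSym G := by
  classical
  intro l l' hl hind hp
  obtain ⟨m, hm, hmem⟩ := h.enum l.toFinset (by
    intro x hx y hy
    exact hind x (by simpa using hx) y (by simpa using hy))
  have hml : m.Perm l := by
    rw [List.perm_ext_iff_of_nodup (h.nodup _ hm) hl]
    intro x
    rw [hmem]
    simp
  have hKl : K l := by simpa using fsb_perm h ht hml [] (by simpa using hm)
  have hKl' : K l' := by simpa using fsb_perm h ht hp.symm [] (by simpa using hKl)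
  exact h.aut _ _ hKl hKl' hp.length_eq.symm

end FS
end SetHom
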