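import Pool.Agent.Helper90.SH.FSa
import Pool.Agent.Helper90.SH.FSb
import Pool.Agent.Helper55.SH.FSc
import Pool.Agent.Helper80.SH.FSd
import Pool.Agent.Helper80.SH.FSe
import Pool.Agent.Helper86.SH.FSf
import Pool.Agent.Helper83.SH.FSg
import Pool.Agent.Helper3.SH.FSh
import Pool.Agent.Helper3.SH.FSi
import Pool.Agent.Helper63.SH.FSj
import Pool.Agent.Helper62.SH.FSk
import Pool.Agent.Helper86.SH.FSl

/-!
# MP_506470_co, FS : every permutation of every finite independent set is induced by an
automorphism
-/

namespace SetHom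
namespace FS

variable {V : Type*} {G : SimpleGraph V}

/-- module FSm (assembly, helper90) -/
theorem fullSym (hsh : SetHomogeneous G) (hI : ∀ n, ∃ S : Finset V, Indep G S ∧ S.card = n)
    (h3 : K3K1 G) : FullSym G := by
  classical
  obtain ⟨K, hK⟩ := exists_gdL hsh hI
  by_cases ht : ∀ t, TT K t
  · exact fullSym_of_TT hK ht
  exfalso
  push Not at ht
  obtain ⟨t, ht⟩ := ht
  obtain ⟨L1, h1⟩ := not_coS hsh hK ht
  obtain ⟨L2, h2⟩ := not_sg hsh hK ht
  have hm : Mono G K := mono_of hK (L := max L1 L2)
    (fun h => h1 (h.mono hK (le_max_left _ _))) (fun h => h2 (h.mono hK (le_max_right _ _)))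
  have hx : ∃ x y v, K [x, y] ∧ ¬ (G.Adj v x ↔ G.Adj v y) := by
    obtain ⟨a, b, c, e, hab, hac, hbc, ea, eb, ec, nea, neb, nec⟩ := h3
    obtain ⟨l, hl, hmem⟩ := hK.enum {a, e} (by
      intro x hx y hy
      simp only [Finset.mem_insert, Finset.mem_singleton] at hx hy
      rcases hx with rfl | rfl <;> rcases hy with rfl | rfl <;>
        first | exact G.irrefl | exact nea | exact fun h => nea h.symm)
    have hnd := hK.nodup _ hl
    have hperm : l.Perm [a, e] := by
      rw [List.perm_ext_iff_of_nodup hnd (by simp [ea.symm])]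
      intro x
      rw [hmem]
      simp
    have hl2 : l.length = 2 := by simpa using hperm.length_eq
    match l, hl2 with
    | [x, y], _ =>
      refine ⟨x, y, b, hl, ?_⟩
      have hx : x = a ∨ x = e := by simpa using (hmem x).1 (by simp)
      have hy : y = a ∨ y = e := by simpa using (hmem y).1 (by simp)
      have hxy : x ≠ y := by simpa using hnd
      rcases hx with rfl | rfl <;> rcases hy with rfl | rfl
      · exact absurd rfl hxy
      · intro h
        exact neb ((h.1 hab.symm).symm)
      · intro h
        exact neb ((h.2 hab.symm).symm)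
      · exact absurd rfl hxy
  obtain ⟨K', h', hm', hi', hf'⟩ := orient hK hm hx
  have hu := uq_of h' hm' hi' hf'
  have hmc := mc_of hsh h' hm' hi' hf' hu
  rcases opt hmc with h | h
  · exact opt1_false hmc h
  · exact opt2_false hmc h h3

end FS
end SetHom
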