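import Pool.Agent.Helper90.SH.FS
import Pool.Agent.Helper25.DI.Main

/-!
# MP_506470_co : full symmetry on finite independent sets and on finite cliques in the doubly
infinite case
-/

namespace SetHom

variable {V : Type} {G : SimpleGraph V}

theorem DI.fullSym (h : DI G) : FS.FullSym G := FS.fullSym h.sh h.ind h.k3k1

theorem DI.fullSymc (h : DI G) : FS.FullSym Gᶜ := h.compl.fullSym

theorem DI.shI' (h : DI G) : ShI G := h.shI h.fullSym

theorem DI.shK' (h : DI G) : ShK G := h.shK h.fullSymc

end SetHom
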