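import Pool.Agent.Helper90.SH.FSDefs
import Pool.Agent.Helper33.SH.Order

/-!
# MP_506470_co, module FSa : existence of the family of good lists
-/

namespace SetHom
namespace FS

variable {V : Type*} {G : SimpleGraph V} {K : List V → Prop}

open Filter ExistsOrder

/-- Independent sets of the same size are conjugate. -/
theorem fsa_indep (hsh : SetHomogeneous G) (S T : Finset V) (hS : Indep G S) (hT : Indep G T)
    (hc : S.card = T.card) : ∃ φ : G ≃g G, φ '' (S : Set V) = (T : Set V) := by
  classical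
  apply hsh
  have e : S ≃ T := Finset.equivOfCardEq hc
  exact ⟨{
    toEquiv := e
    map_rel_iff' := by
      intro a b
      have h1 : ¬ G.Adj (e a).1 (e b).1 := hT _ (e a).2 _ (e b).2
      have h2 : ¬ G.Adj a.1 b.1 := hS _ a.2 _ b.2
      show G.Adj (e a).1 (e b).1 ↔ G.Adj a.1 b.1
      exact ⟨fun h => absurd h h1, fun h => absurd h h2⟩ }⟩

/-- There is an infinite independent set. -/
theorem fsa_inf (hsh : SetHomogeneous G) (hI : ∀ n, ∃ S : Finset V, Indep G S ∧ S.card = n) :
    ∃ M : Set V, M.Infinite ∧ ∀ x ∈ M, ∀ y ∈ M, ¬ G.Adj x y := by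
  classical
  obtain ⟨M, hM⟩ := zorn_subset {M : Set V | ∀ x ∈ M, ∀ y ∈ M, ¬ G.Adj x y} (by
    intro c hc hch
    refine ⟨⋃₀ c, ?_, fun s hs => Set.subset_sUnion_of_mem hs⟩
    rintro x ⟨A, hA, hxA⟩ y ⟨B, hB, hyB⟩
    rcases hch.total hA hB with h | h
    · exact hc hB x (h hxA) y hyB
    · exact hc hA x hxA y (h hyB))
  refine ⟨M, ?_, hM.prop⟩
  intro hfin
  obtain ⟨S', hS', hcard⟩ := hI (hfin.toFinset.card + 1)
  obtain ⟨y, hy⟩ : S'.Nonempty := by
    rw [← Finset.card_pos]; omega
  have hT : Indep G (S'.erase y) := fun a ha b hb =>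
    hS' a (Finset.mem_of_mem_erase ha) b (Finset.mem_of_mem_erase hb)
  have hM0 : Indep G hfin.toFinset := fun a ha b hb =>
    hM.prop a (by simpa using ha) b (by simpa using hb)
  obtain ⟨φ, hφ⟩ := fsa_indep hsh (S'.erase y) hfin.toFinset hT hM0 (by
    rw [Finset.card_erase_of_mem hy]; omega)
  have hφM : φ '' (S' : Set V) ⊇ M := by
    intro x hx
    have : x ∈ (hfin.toFinset : Set V) := by simpa using hx
    rw [← hφ] at this
    obtain ⟨z, hz, rfl⟩ := this
    exact ⟨z, Finset.mem_of_mem_erase (Finset.mem_coe.1 hz), rfl⟩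
  have hmax := hM.le_of_ge (y := φ '' (S' : Set V)) (by
    rintro _ ⟨a, ha, rfl⟩ _ ⟨b, hb, rfl⟩ hab
    exact hS' a (by simpa using ha) b (by simpa using hb) (φ.map_adj_iff.1 hab)) hφM
  have hyM : φ y ∈ M := hmax ⟨y, by simpa using hy, rfl⟩
  have : φ y ∈ (hfin.toFinset : Set V) := by simpa using hyM
  rw [← hφ] at this
  obtain ⟨z, hz, hzy⟩ := this
  have : z = y := φ.injective hzy
  subst this
  simp at hz

/-- Equivalence of lists. -/
def FsaE (G : SimpleGraph V) (l m : List V) : Prop := ∃ φ : G ≃g G, l.map φ = m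

theorem FsaE.symm {l m : List V} (h : FsaE G l m) : FsaE G m l := by
  obtain ⟨φ, rfl⟩ := h
  refine ⟨φ.symm, ?_⟩
  rw [List.map_map]
  conv_rhs => rw [← List.map_id l]
  apply List.map_congr_left
  intro x _
  simp

theorem FsaE.trans {l m k : List V} (h : FsaE G l m) (h' : FsaE G m k) : FsaE G l k := by
  obtain ⟨φ, rfl⟩ := h
  obtain ⟨ψ, rfl⟩ := h'
  refine ⟨φ.trans ψ, ?_⟩
  rw [List.map_map]
  apply List.map_congr_left
  intro x _
  rfl

theorem fsa_class (hsh : SetHomogeneous G) (M : Set V) (hM : M.Infinite)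
    (hMi : ∀ x ∈ M, ∀ y ∈ M, ¬ G.Adj x y) (U : Ultrafilter M) (hU : (U : Filter M) ≤ cofinite)
    (n : ℕ) : ∃ k : List V, Q U (fun m => FsaE G (m.map Subtype.val) k) n [] := by
  classical
  have : Infinite M := hM.to_subtype
  obtain ⟨S0, hS0⟩ : ∃ S : Finset M, S.card = n := Infinite.exists_subset_card_eq M n
  let S : Finset V := S0.image Subtype.val
  have hS : S.card = n := by
    rw [← hS0]; exact Finset.card_image_of_injective _ Subtype.val_injective
  have hSi : Indep G S := by
    intro x hx y hy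
    simp only [S, Finset.mem_image] at hx hy
    obtain ⟨x, _, rfl⟩ := hx
    obtain ⟨y, _, rfl⟩ := hy
    exact hMi _ x.2 _ y.2
  have hfin : {k : List V | k.Nodup ∧ k.toFinset = S}.Finite := by
    have : {k : List V | k.Nodup ∧ k.toFinset = S} ⊆
        (fun k : List S => k.map Subtype.val) '' {k : List S | k.length ≤ n} := by
      rintro k ⟨hk, hk'⟩
      refine ⟨k.attach.map fun x => ⟨x.1, by rw [← hk']; simpa using x.2⟩, ?_, ?_⟩
      · simp only [Set.mem_ofPred_eq, List.length_map, List.length_attach]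
        rw [← hS, ← hk', List.toFinset_card_of_nodup hk]
      · simp [List.map_map, Function.comp_def]
    exact (Set.Finite.image _ (List.finite_length_le _ _)).subset this
  obtain ⟨k, -, hk⟩ := Q_exists U hfin.toFinset
    (fun k m => FsaE G (m.map Subtype.val) k) n [] (by
    apply Q_nodup U hU _ n _ n [] (by simp) (by simp)
    intro m hm hml
    have hmn : (m.map (Subtype.val : M → V)).Nodup := hm.map Subtype.val_injective
    have hmi : Indep G (m.map (Subtype.val : M → V)).toFinset := by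
      intro x hx y hy
      simp only [List.mem_toFinset, List.mem_map] at hx hy
      obtain ⟨x, _, rfl⟩ := hx
      obtain ⟨y, _, rfl⟩ := hy
      exact hMi _ x.2 _ y.2
    obtain ⟨φ, hφ⟩ := fsa_indep hsh _ S hmi hSi (by
      rw [List.toFinset_card_of_nodup hmn, List.length_map, hml, hS])
    refine ⟨(m.map Subtype.val).map φ, ?_, φ, rfl⟩
    simp only [Set.Finite.mem_toFinset, Set.mem_ofPred_eq]
    refine ⟨hmn.map φ.injective, ?_⟩
    apply Finset.coe_injective
    rw [← hφ]
    ext x
    simp only [List.coe_toFinset, Set.mem_ofPred_eq, List.mem_map, Set.mem_image])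
  exact ⟨k, hk⟩

/-- module FSa (existence of good lists). -/
theorem exists_gdL (hsh : SetHomogeneous G) (hI : ∀ n, ∃ S : Finset V, Indep G S ∧ S.card = n) :
    ∃ K : List V → Prop, GdL G K := by
  classical
  obtain ⟨M, hM, hMi⟩ := fsa_inf hsh hI
  have : Infinite M := hM.to_subtype
  let U : Ultrafilter M := hyperfilter M
  have hU : (U : Filter M) ≤ cofinite := Filter.hyperfilter_le_cofinite
  choose k hk using fsa_class hsh M hM hMi U hU
  -- long lists
  have hlong : ∀ N, ∃ l : List V, l.length = N ∧ l.Nodup ∧ (∀ x ∈ l, ∀ y ∈ l, ¬ G.Adj x y) ∧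
      ∀ m, m.Sublist l → FsaE G m (k m.length) := by
    intro N
    obtain ⟨l, hl, hnd, hq⟩ := exists_long U hU
      (fun n m => FsaE G (m.map Subtype.val) (k n)) hk N N le_rfl
    refine ⟨l.map Subtype.val, by simpa using hl, hnd.map Subtype.val_injective, ?_, ?_⟩
    · intro x hx y hy
      simp only [List.mem_map] at hx hy
      obtain ⟨x, _, rfl⟩ := hx
      obtain ⟨y, _, rfl⟩ := hy
      exact hMi _ x.2 _ y.2
    · intro m hm
      rw [List.sublist_map_iff] at hm
      obtain ⟨m', hm', rfl⟩ := hm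
      have h1 := hq m' hm' m'.length (by rw [← hl]; exact hm'.length_le) 0 (by simp)
      simpa [Q] using h1
  have hkk : ∀ n, (k n).Nodup ∧ (∀ x ∈ k n, ∀ y ∈ k n, ¬ G.Adj x y) := by
    intro n
    obtain ⟨l, hl, hnd, hi, hs⟩ := hlong n
    obtain ⟨φ, hφ⟩ := hs l (List.Sublist.refl l)
    rw [hl] at hφ
    rw [← hφ]
    refine ⟨hnd.map φ.injective, ?_⟩
    intro x hx y hy
    simp only [List.mem_map] at hx hy
    obtain ⟨x, hx, rfl⟩ := hx
    obtain ⟨y, hy, rfl⟩ := hy
    rw [φ.map_adj_iff]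
    exact hi x hx y hy
  have himg : ∀ (φ : G ≃g G) l, (∀ m, m.Sublist l → FsaE G m (k m.length)) →
      ∀ m, m.Sublist (l.map φ) → FsaE G m (k m.length) := by
    intro φ l hl m hm
    rw [List.sublist_map_iff] at hm
    obtain ⟨m', hm', rfl⟩ := hm
    have h1 := hl m' hm'
    have h3 : FsaE G m' (m'.map φ) := ⟨φ, rfl⟩
    rw [List.length_map]
    exact h3.symm.trans h1
  have hprop : ∀ l, (∀ m, m.Sublist l → FsaE G m (k m.length)) →
      l.Nodup ∧ ∀ x ∈ l, ∀ y ∈ l, ¬ G.Adj x y := by
    intro l hl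
    obtain ⟨φ, hφ⟩ := (hl l (List.Sublist.refl l)).symm
    obtain ⟨h1, h2⟩ := hkk l.length
    rw [← hφ]
    refine ⟨h1.map φ.injective, ?_⟩
    intro x hx y hy
    simp only [List.mem_map] at hx hy
    obtain ⟨x, hx, rfl⟩ := hx
    obtain ⟨y, hy, rfl⟩ := hy
    rw [φ.map_adj_iff]
    exact h2 x hx y hy
  refine ⟨fun l => ∀ m, m.Sublist l → FsaE G m (k m.length), ?_⟩
  exact {
    nodup := fun l hl => (hprop l hl).1
    ind := fun l hl => (hprop l hl).2
    sub := fun l m hl hm m' hm' => hl m' (hm'.trans hm)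
    aut := by
      intro l m hl hm hlen
      have h1 := hl l (List.Sublist.refl l)
      have h2 := hm m (List.Sublist.refl m)
      rw [← hlen] at h2
      exact h1.trans h2.symm
    img := himg
    enum := by
      intro S hS
      obtain ⟨l, hl, hnd, hi, hs⟩ := hlong S.card
      obtain ⟨φ, hφ⟩ := fsa_indep hsh l.toFinset S (fun x hx y hy =>
        hi x (by simpa using hx) y (by simpa using hy)) hS (by
          rw [List.toFinset_card_of_nodup hnd, hl])
      refine ⟨l.map φ, himg φ l hs, ?_⟩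
      intro x
      have : x ∈ (S : Set V) ↔ x ∈ φ '' (l.toFinset : Set V) := by rw [hφ]
      rw [Finset.mem_coe] at this
      rw [this]
      simp
    long := by
      intro n
      obtain ⟨l, hl, hnd, hi, hs⟩ := hlong n
      exact ⟨l, hs, hl⟩ }

end FS
end SetHom
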